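import Pool.Agent.W996.MW.Stm

set_option autoImplicit false

namespace Pool.Agent.W333.MW.UB

open Pool.Agent.W996.MW

/-- the weights -/
noncomputable def w (j : ℕ) : ℝ := Real.sqrt (j + 1) - Real.sqrt j

theorem w_nonneg (j : ℕ) : 0 ≤ w j := by
  unfold w
  have : Real.sqrt (j:ℝ) ≤ Real.sqrt (j + 1) := Real.sqrt_le_sqrt (by linarith)
  linarith

theorem w_mul (j : ℕ) : w j * (Real.sqrt (j+1) + Real.sqrt j) = 1 := by
  unfold w
  have h1 : Real.sqrt ((j:ℝ) + 1) * Real.sqrt (j+1) = j + 1 := Real.mul_self_sqrt (by positivity)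
  have h2 : Real.sqrt (j:ℝ) * Real.sqrt j = j := Real.mul_self_sqrt (by positivity)
  nlinarith

theorem w_anti {i j : ℕ} (h : i ≤ j) : w j ≤ w i := by
  have hi := w_mul i
  have hj := w_mul j
  have hij : (i:ℝ) ≤ j := by exact_mod_cast h
  have h1 : Real.sqrt (i:ℝ) ≤ Real.sqrt j := Real.sqrt_le_sqrt hij
  have h2 : Real.sqrt ((i:ℝ) + 1) ≤ Real.sqrt (j + 1) := Real.sqrt_le_sqrt (by linarith)
  have h3 : 0 < Real.sqrt ((i:ℝ) + 1) := by positivity
  have h4 : 0 ≤ Real.sqrt (i:ℝ) := by positivity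
  have e1 : w i = 1 / (Real.sqrt (i+1) + Real.sqrt i) := by
    rw [eq_div_iff (by positivity)]; exact hi
  have e2 : w j = 1 / (Real.sqrt (j+1) + Real.sqrt j) := by
    rw [eq_div_iff (by positivity)]; exact hj
  rw [e1, e2]
  apply one_div_le_one_div_of_le (by positivity)
  linarith

theorem sum_le (T : Finset ℕ) : ∑ j ∈ T, w j ≤ Real.sqrt (T.card : ℝ) := by
  induction T using Finset.induction_on_max with
  | empty => simp
  | insert m T hm ih =>
    have hmT : m ∉ T := fun h => lt_irrefl _ (hm m h)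
    rw [Finset.sum_insert hmT, Finset.card_insert_of_notMem hmT]
    have hc : T.card ≤ m := by
      have : T ⊆ Finset.range m := fun x hx => Finset.mem_range.mpr (hm x hx)
      simpa using Finset.card_le_card this
    have h1 := w_anti hc
    have h2 : w T.card = Real.sqrt (T.card + 1) - Real.sqrt T.card := rfl
    push_cast
    linarith

theorem log_le (J : ℕ) : Real.log (J + 1) ≤ 4 * ∑ j ∈ Finset.range J, (w j)^2 := by
  have h1 := log_add_one_le_harmonic J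
  have h2 : ((harmonic J : ℚ) : ℝ) = ∑ j ∈ Finset.range J, ((j:ℝ) + 1)⁻¹ := by
    unfold harmonic
    push_cast
    rfl
  rw [Finset.mul_sum]
  have h0 : Real.log (J + 1) ≤ ∑ j ∈ Finset.range J, ((j:ℝ) + 1)⁻¹ := by
    rw [← h2]; exact_mod_cast h1
  refine h0.trans (Finset.sum_le_sum fun j _ => ?_)
  have hw := w_mul j
  have h3 : Real.sqrt (j:ℝ) ≤ Real.sqrt (j + 1) := Real.sqrt_le_sqrt (by linarith)
  have h4 : 1 ≤ w j * (2 * Real.sqrt (j+1)) := by nlinarith [w_nonneg j]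
  have h5 : 1 ≤ (w j * (2 * Real.sqrt (j+1)))^2 := one_le_pow₀ h4
  have h6 : (w j * (2 * Real.sqrt (j+1)))^2 = 4 * w j^2 * (j+1) := by
    rw [mul_pow, mul_pow, Real.sq_sqrt (by positivity)]; ring
  rw [h6] at h5
  have h7 : (0:ℝ) < (j:ℝ) + 1 := by positivity
  calc ((j:ℝ) + 1)⁻¹ = 1 * ((j:ℝ) + 1)⁻¹ := (one_mul _).symm
    _ ≤ (4 * w j^2 * (j+1)) * ((j:ℝ) + 1)⁻¹ :=
      mul_le_mul_of_nonneg_right h5 (by positivity)
    _ = 4 * w j ^ 2 := by field_simp

/-- the sum of the weights in the column `k` -/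
noncomputable def t {J : ℕ} (S : Finset (Fin J × Fin 4)) (k : Fin 4) : ℝ :=
  ∑ i ∈ S.filter (fun i => i.2 = k), w (i.1 : ℕ)

theorem t_nonneg {J : ℕ} (S : Finset (Fin J × Fin 4)) (k : Fin 4) : 0 ≤ t S k :=
  Finset.sum_nonneg fun _ _ => w_nonneg _

theorem t_sq {J : ℕ} (S : Finset (Fin J × Fin 4)) (k : Fin 4) :
    t S k ^ 2 ≤ ((S.filter (fun i => i.2 = k)).card : ℝ) := by
  have hinj : Set.InjOn (fun i : Fin J × Fin 4 => (i.1 : ℕ))
      (S.filter (fun i => i.2 = k) : Finset (Fin J × Fin 4)) := by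
    intro x hx y hy hxy
    simp only [Finset.coe_filter, Set.mem_ofPred_eq] at hx hy
    have h1 : x.1 = y.1 := Fin.ext hxy
    have h2 : x.2 = y.2 := hx.2.trans hy.2.symm
    exact Prod.ext h1 h2
  have h1 : t S k = ∑ j ∈ (S.filter (fun i => i.2 = k)).image (fun i => (i.1 : ℕ)), w j := by
    rw [Finset.sum_image hinj]
    rfl
  have h2 := sum_le ((S.filter (fun i => i.2 = k)).image (fun i => (i.1 : ℕ)))
  rw [← h1, Finset.card_image_of_injOn hinj] at h2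
  have h3 := t_nonneg S k
  calc t S k ^ 2 ≤ (Real.sqrt ((S.filter (fun i => i.2 = k)).card : ℝ)) ^ 2 := by
        gcongr
    _ = _ := Real.sq_sqrt (by positivity)

theorem sum_norm {J : ℕ} (S : Finset (Fin J × Fin 4)) :
    ‖∑ i ∈ S, ((w (i.1 : ℕ) : ℝ) : ℂ) * Complex.I ^ (i.2 : ℕ)‖ ^ 2 ≤ (S.card : ℝ) := by
  have h1 : ∑ i ∈ S, ((w (i.1 : ℕ) : ℝ) : ℂ) * Complex.I ^ (i.2 : ℕ) =
      ∑ k : Fin 4, ((t S k : ℝ) : ℂ) * Complex.I ^ (k : ℕ) := by
    rw [← Finset.sum_fiberwise S (fun i => i.2)]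
    refine Finset.sum_congr rfl fun k _ => ?_
    unfold t
    push_cast
    rw [Finset.sum_mul]
    refine Finset.sum_congr rfl fun i hi => ?_
    rw [(Finset.mem_filter.mp hi).2]
  have h2 : ∑ k : Fin 4, ((t S k : ℝ) : ℂ) * Complex.I ^ (k : ℕ) =
      ⟨t S 0 - t S 2, t S 1 - t S 3⟩ := by
    rw [Fin.sum_univ_four]
    have e2 : Complex.I ^ 2 = -1 := Complex.I_sq
    have e3 : Complex.I ^ 3 = -Complex.I := Complex.I_pow_three
    apply Complex.ext
    · simp [e2, e3]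
      ring
    · simp [e2, e3]
      ring
  have h3 : (S.card : ℝ) = ∑ k : Fin 4, ((S.filter (fun i => i.2 = k)).card : ℝ) := by
    have := Finset.card_eq_sum_card_fiberwise (f := fun i : Fin J × Fin 4 => i.2) (s := S)
      (t := (Finset.univ : Finset (Fin 4))) (fun _ _ => by simp)
    rw [this]
    push_cast
    rfl
  rw [h1, h2, h3, Fin.sum_univ_four, Complex.sq_norm, Complex.normSq_mk]
  have a0 := t_sq S 0
  have a1 := t_sq S 1
  have a2 := t_sq S 2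
  have a3 := t_sq S 3
  have b0 := t_nonneg S 0
  have b1 := t_nonneg S 1
  have b2 := t_nonneg S 2
  have b3 := t_nonneg S 3
  nlinarith [mul_nonneg b0 b2, mul_nonneg b1 b3]

theorem main : S_UB := by
  intro J hJ
  set a : ℝ := ∑ j ∈ Finset.range J, (w j)^2 with ha
  have hJ' : (1:ℝ) ≤ J := by exact_mod_cast hJ
  have hlog : Real.log (J + 1) ≤ 4 * a := log_le J
  have hlogpos : 0 < Real.log ((J:ℝ) + 1) := Real.log_pos (by linarith)
  have hapos : 0 < a := by linarith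
  have hsq : Real.sqrt a ^ 2 = a := Real.sq_sqrt hapos.le
  have hspos : 0 < Real.sqrt a := Real.sqrt_pos.mpr hapos
  refine ⟨fun i => (((2 * Real.sqrt a)⁻¹ : ℝ) : ℂ) *
    (((w (i.1 : ℕ) : ℝ) : ℂ) * Complex.I ^ (i.2 : ℕ)), ?_, ?_⟩
  · unfold normSq
    rw [Fintype.sum_prod_type]
    have h1 : ∀ (j : Fin J) (k : Fin 4),
        ‖(((2 * Real.sqrt a)⁻¹ : ℝ) : ℂ) *
          (((w ((j, k).1 : ℕ) : ℝ) : ℂ) * Complex.I ^ ((j, k).2 : ℕ))‖ ^ 2 =
          (4 * a)⁻¹ * w j ^ 2 := by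
      intro j k
      rw [norm_mul, norm_mul, norm_pow, Complex.norm_I, one_pow, mul_one, Complex.norm_real,
        Complex.norm_real, mul_pow]
      simp only [Real.norm_eq_abs, sq_abs]
      congr 1
      rw [inv_pow, mul_pow, hsq]
      norm_num
    simp_rw [h1]
    simp only [Finset.sum_const, Finset.card_univ, Fintype.card_fin, nsmul_eq_mul]
    rw [← Finset.mul_sum, ← Finset.mul_sum,
      Fin.sum_univ_eq_sum_range (fun j => w j ^ 2) J, ← ha]
    push_cast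
    field_simp
  · intro S
    rw [← Finset.mul_sum, norm_mul, mul_pow]
    have h2 := sum_norm S
    have h3 : ‖(((2 * Real.sqrt a)⁻¹ : ℝ) : ℂ)‖ ^ 2 = (4 * a)⁻¹ := by
      rw [Complex.norm_real, Real.norm_eq_abs, sq_abs, inv_pow, mul_pow, hsq]
      norm_num
    rw [h3]
    have h4 : Real.log ((J:ℝ) + 1) * (4 * a)⁻¹ ≤ 1 := by
      rw [← div_eq_mul_inv, div_le_one (by positivity)]
      exact hlog
    have h5 : 0 ≤ Real.log ((J:ℝ) + 1) * (4 * a)⁻¹ := by positivity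
    calc Real.log ((J:ℝ) + 1) * ((4 * a)⁻¹ *
          ‖∑ i ∈ S, ((w (i.1 : ℕ) : ℝ) : ℂ) * Complex.I ^ (i.2 : ℕ)‖ ^ 2)
        = (Real.log ((J:ℝ) + 1) * (4 * a)⁻¹) *
          ‖∑ i ∈ S, ((w (i.1 : ℕ) : ℝ) : ℂ) * Complex.I ^ (i.2 : ℕ)‖ ^ 2 := by ring
      _ ≤ 1 * ‖∑ i ∈ S, ((w (i.1 : ℕ) : ℝ) : ℂ) * Complex.I ^ (i.2 : ℕ)‖ ^ 2 :=
        mul_le_mul_of_nonneg_right h4 (by positivity)
      _ ≤ (S.card : ℝ) := by rw [one_mul]; exact h2

end Pool.Agent.W333.MW.UB
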